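import Mathlib

/-! Proof that the pattern a, b, a(b+1) is partition regular (MP_9e12c1_co). NOT a hand-in: probably known
(S. Goswami, Monochromatic translated product and answering Sahasrabudhe's conjecture, 2024). Kept as a helper. -/

set_option autoImplicit false

namespace Pool.Agent.L0h63.S10423Proof

open Finset

/-! ### Averaging over one coordinate -/

/-- If for every `t`, among the `|T|` one-coordinate changes of `t` at `i` at most a `1/N` fraction is
bad, then at most a `1/N` fraction of all `t` is bad. -/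
lemma card_bad {ι T : Type*} [Fintype ι] [DecidableEq ι] [Fintype T] [Nonempty T]
    (i : ι) (bad : (ι → T) → Prop) [DecidablePred bad] (N : ℕ)
    (h : ∀ t : ι → T, N * (univ.filter fun τ : T => bad (Function.update t i τ)).card
      ≤ Fintype.card T) :
    N * (univ.filter fun t : ι → T => bad t).card ≤ Fintype.card (ι → T) := by
  classical
  have hinv : ((univ : Finset ((ι → T) × T)).filter
      fun p => bad (Function.update p.1 i p.2)).card
      = ((univ : Finset ((ι → T) × T)).filter fun p => bad p.1).card := by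
    refine Finset.card_bij' (fun p _ => (Function.update p.1 i p.2, p.1 i))
      (fun p _ => (Function.update p.1 i p.2, p.1 i)) ?_ ?_ ?_ ?_
    · intro p hp
      simpa using hp
    · intro p hp
      simpa using hp
    · intro p hp
      simp
    · intro p hp
      simp
  have h1 : ((univ : Finset ((ι → T) × T)).filter fun p => bad p.1).card
      = (univ.filter fun t : ι → T => bad t).card * Fintype.card T := by
    have : ((univ : Finset ((ι → T) × T)).filter fun p => bad p.1)
        = (univ.filter fun t : ι → T => bad t) ×ˢ (univ : Finset T) := by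
      ext p; simp
    rw [this, Finset.card_product, Finset.card_univ]
  have h2 : ((univ : Finset ((ι → T) × T)).filter
      fun p => bad (Function.update p.1 i p.2)).card
      = ∑ t : ι → T, (univ.filter fun τ : T => bad (Function.update t i τ)).card := by
    rw [Finset.card_filter, ← Finset.univ_product_univ, Finset.sum_product]
    refine Finset.sum_congr rfl fun t _ => ?_
    rw [Finset.card_filter]
  have h3 : N * ((univ.filter fun t : ι → T => bad t).card * Fintype.card T)
      ≤ Fintype.card (ι → T) * Fintype.card T := by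
    rw [← h1, ← hinv, h2, Finset.mul_sum]
    calc ∑ t : ι → T, N * (univ.filter fun τ : T => bad (Function.update t i τ)).card
        ≤ ∑ _t : ι → T, Fintype.card T := Finset.sum_le_sum fun t _ => h t
      _ = Fintype.card (ι → T) * Fintype.card T := by
        rw [Finset.sum_const, Finset.card_univ, smul_eq_mul]
  have hT : 0 < Fintype.card T := Fintype.card_pos
  rw [← mul_assoc] at h3
  exact Nat.le_of_mul_le_mul_right h3 hT

/-! ### Ramsey's theorem for pairs -/

lemma end_homogeneous (r : ℕ) (hr : 0 < r) (m : ℕ) :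
    ∃ K : ℕ, ∀ (χ : ℕ → ℕ → Fin r) (X : Finset ℕ), K ≤ X.card →
    ∃ (f : Fin m → ℕ) (g : Fin m → Fin r), (∀ a, f a ∈ X) ∧
      ∀ a b, a < b → f a < f b ∧ χ (f a) (f b) = g a := by
  classical
  induction m with
  | zero =>
    refine ⟨0, fun χ X _ => ⟨Fin.elim0, Fin.elim0, ?_, ?_⟩⟩
    · intro a; exact a.elim0
    · intro a; exact a.elim0
  | succ m ih =>
    obtain ⟨K, hK⟩ := ih
    refine ⟨r * K + 1, fun χ X hX => ?_⟩
    have hne : X.Nonempty := by
      rw [← Finset.card_pos]; omega
    set x := X.min' hne with hx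
    have hcard : r * K ≤ (X.erase x).card := by
      rw [Finset.card_erase_of_mem (Finset.min'_mem X hne)]; omega
    obtain ⟨i, -, hi⟩ := Finset.exists_le_card_fiber_of_mul_le_card_of_maps_to
      (s := X.erase x) (t := (univ : Finset (Fin r))) (f := fun y => χ x y) (n := K)
      (fun a _ => mem_univ _) ⟨⟨0, hr⟩, mem_univ _⟩ (by simpa using hcard)
    obtain ⟨f, g, hfX, hfg⟩ := hK χ _ hi
    have hfx : ∀ a, x < f a ∧ χ x (f a) = i := by
      intro a
      have h1 := Finset.mem_filter.1 (hfX a)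
      have h2 := Finset.mem_erase.1 h1.1
      refine ⟨lt_of_le_of_ne (Finset.min'_le X _ h2.2) (Ne.symm h2.1), h1.2⟩
    refine ⟨Fin.cons x f, Fin.cons i g, ?_, ?_⟩
    · intro a
      refine Fin.cases ?_ (fun a => ?_) a
      · simpa using Finset.min'_mem X hne
      · simp only [Fin.cons_succ]
        exact Finset.mem_of_mem_erase (Finset.mem_filter.1 (hfX a)).1
    · intro a b
      refine Fin.cases ?_ (fun b => ?_) b
      · intro h
        exact absurd h (Fin.not_lt_zero a)
      · refine Fin.cases ?_ (fun a => ?_) a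
        · intro _
          simpa only [Fin.cons_succ, Fin.cons_zero] using hfx b
        · intro h
          simpa only [Fin.cons_succ] using hfg a b (Fin.succ_lt_succ_iff.1 h)

lemma ramsey (r : ℕ) (hr : 0 < r) (k : ℕ) :
    ∃ K : ℕ, ∀ χ : ℕ → ℕ → Fin r,
    ∃ (f : Fin k → ℕ) (i : Fin r), (∀ a, f a < K) ∧
      ∀ a b, a < b → f a < f b ∧ χ (f a) (f b) = i := by
  classical
  obtain ⟨K, hK⟩ := end_homogeneous r hr (r * k)
  refine ⟨K, fun χ => ?_⟩
  obtain ⟨f, g, hfX, hfg⟩ := hK χ (Finset.range K) (by simp)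
  obtain ⟨i, -, hi⟩ := Finset.exists_le_card_fiber_of_mul_le_card_of_maps_to
      (s := (univ : Finset (Fin (r * k)))) (t := (univ : Finset (Fin r))) (f := g) (n := k)
      (fun a _ => mem_univ _) ⟨⟨0, hr⟩, mem_univ _⟩ (by simp)
  obtain ⟨Y, hY, hYk⟩ := Finset.exists_subset_card_eq hi
  refine ⟨fun a => f (Y.orderEmbOfFin hYk a), i, ?_, ?_⟩
  · intro a
    exact Finset.mem_range.1 (hfX _)
  · intro a b hab
    have hlt : Y.orderEmbOfFin hYk a < Y.orderEmbOfFin hYk b :=
      (Y.orderEmbOfFin hYk).strictMono hab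
    have h1 := hfg _ _ hlt
    refine ⟨h1.1, ?_⟩
    rw [h1.2]
    have := hY (Finset.orderEmbOfFin_mem Y hYk a)
    exact (Finset.mem_filter.1 this).2

/-! ### Chains of products -/

/-- The bounds `B l`. -/
def B (M : ℕ) : ℕ → ℕ
  | 0 => 1
  | l + 1 => B M l + M ^ (l + 1) * (B M l).factorial

/-- `P_l = 1 + ∑_{m < l} x_0 ⋯ x_m (B m)!`. -/
def P (M : ℕ) (x : ℕ → ℕ) : ℕ → ℕ
  | 0 => 1
  | l + 1 => P M x l + (∏ m ∈ range (l + 1), x m) * (B M l).factorial

lemma P_pos (M : ℕ) (x : ℕ → ℕ) (l : ℕ) : 0 < P M x l := by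
  induction l with
  | zero => simp [P]
  | succ l ih => simp only [P]; omega

lemma P_le (M : ℕ) (x : ℕ → ℕ) (hx : ∀ m, x m ≤ M) (l : ℕ) : P M x l ≤ B M l := by
  induction l with
  | zero => simp [P, B]
  | succ l ih =>
    simp only [P, B]
    refine add_le_add ih (Nat.mul_le_mul_right _ ?_)
    calc ∏ m ∈ range (l + 1), x m ≤ ∏ _m ∈ range (l + 1), M :=
          Finset.prod_le_prod' fun m _ => hx m
      _ = M ^ (l + 1) := by simp

lemma B_mono (M : ℕ) : Monotone (B M) := by
  refine monotone_nat_of_le_succ fun l => ?_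
  simp [B]

lemma P_dvd (M : ℕ) (x : ℕ → ℕ) (hx : ∀ m, x m ≤ M) {i l : ℕ} (h : i ≤ l) :
    P M x i ∣ (B M l).factorial :=
  Nat.dvd_factorial (P_pos M x i) ((P_le M x hx i).trans (B_mono M h))

/-- `P_j - P_i`. -/
lemma P_eq (M : ℕ) (x : ℕ → ℕ) {i j : ℕ} (h : i ≤ j) :
    P M x j = P M x i + ∑ l ∈ Ico i j, (∏ m ∈ range (l + 1), x m) * (B M l).factorial := by
  induction j, h using Nat.le_induction with
  | base => simp
  | succ j hj ih =>
    rw [Finset.sum_Ico_succ_top hj, ← add_assoc, ← ih]
    rfl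

/-- the cofactor: `P_j / P_i = 1 + x_i * cof`. -/
def cof (M : ℕ) (x : ℕ → ℕ) (i j : ℕ) : ℕ :=
  ∑ l ∈ Ico i j, (∏ m ∈ (range (l + 1)).erase i, x m) * ((B M l).factorial / P M x i)

lemma P_eq_mul (M : ℕ) (x : ℕ → ℕ) (hx : ∀ m, x m ≤ M) {i j : ℕ} (h : i ≤ j) :
    P M x j = P M x i * (x i * cof M x i j + 1) := by
  rw [P_eq M x h, mul_add, mul_one, add_comm (P M x i * _), cof, Finset.mul_sum, Finset.mul_sum]
  congr 1
  refine Finset.sum_congr rfl fun l hl => ?_
  have hl' := Finset.mem_Ico.1 hl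
  rw [← Finset.mul_prod_erase (range (l + 1)) x (a := i) (Finset.mem_range.2 (by omega))]
  obtain ⟨d, hd⟩ := P_dvd M x hx hl'.1
  rw [hd, Nat.mul_div_cancel_left _ (P_pos M x i)]
  ring

lemma P_congr (M : ℕ) (x y : ℕ → ℕ) (i : ℕ) (h : ∀ m, m < i → x m = y m) :
    P M x i = P M y i := by
  induction i with
  | zero => rfl
  | succ l ih =>
    simp only [P]
    rw [ih fun m hm => h m (by omega), Finset.prod_congr rfl fun m hm => h m (Finset.mem_range.1 hm)]

lemma cof_congr (M : ℕ) (x y : ℕ → ℕ) (i j : ℕ) (h : ∀ m, m ≠ i → x m = y m) :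
    cof M x i j = cof M y i j := by
  unfold cof
  refine Finset.sum_congr rfl fun l _ => ?_
  rw [P_congr M x y i fun m hm => h m (by omega),
    Finset.prod_congr rfl fun m hm => h m (Finset.ne_of_mem_erase hm)]

lemma cof_pos (M : ℕ) (x : ℕ → ℕ) (hx : ∀ m, x m ≤ M) (hx0 : ∀ m, 0 < x m) {i j : ℕ} (h : i < j) :
    0 < cof M x i j := by
  unfold cof
  refine Finset.sum_pos (fun l hl => ?_) ⟨i, Finset.mem_Ico.2 ⟨le_rfl, h⟩⟩
  have hl' := Finset.mem_Ico.1 hl
  refine Nat.mul_pos (Finset.prod_pos fun m _ => hx0 m) ?_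
  exact Nat.div_pos (Nat.le_of_dvd (Nat.factorial_pos _) (P_dvd M x hx hl'.1)) (P_pos M x i)

/-! ### Sparse sets -/

/-- `S` is sparse if for every `N` there is a finite family of positive multipliers such that every
dilate of the family meets `S` in at most a `1/N` fraction. -/
def Sparse (S : Set ℕ) : Prop :=
  ∀ N : ℕ, ∃ (n : ℕ) (φ : Fin (n + 1) → ℕ), (∀ t, 0 < φ t) ∧
    ∀ a : ℕ, 0 < a → ∀ F : Finset (Fin (n + 1)), (∀ t ∈ F, a * φ t ∈ S) → N * F.card ≤ n + 1

/-- The complement of a sparse set contains `Y_{ij} - 1` for a long chain. -/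
lemma exists_chain (S : Set ℕ) (hS : Sparse S) (K : ℕ) :
    ∃ (Q : ℕ → ℕ) (b : ℕ → ℕ → ℕ), (∀ i, i < K → 0 < Q i) ∧
      ∀ i j, i < j → j < K → 0 < b i j ∧ Q j = Q i * (b i j + 1) ∧ b i j ∉ S := by
  classical
  obtain ⟨n, φ, hφ0, hφ⟩ := hS (K * K + 1)
  set M := ∑ t, φ t with hM
  have hφM : ∀ t, φ t ≤ M := fun t =>
    Finset.single_le_sum (f := φ) (fun _ _ => Nat.zero_le _) (mem_univ t)
  have hM0 : 1 ≤ M := (hφ0 0).trans_le (hφM 0)
  -- the variables
  let x : (Fin K → Fin (n + 1)) → ℕ → ℕ := fun t m => if h : m < K then φ (t ⟨m, h⟩) else 1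
  have hxM : ∀ t m, x t m ≤ M := by
    intro t m
    by_cases h : m < K
    · simp only [x, h, dif_pos]; exact hφM _
    · simp only [x, h, dif_neg, not_false_eq_true]; exact hM0
  have hx0 : ∀ t m, 0 < x t m := by
    intro t m
    by_cases h : m < K
    · simp only [x, h, dif_pos]; exact hφ0 _
    · simp only [x, h, dif_neg, not_false_eq_true]; exact Nat.one_pos
  let bad : Fin K → Fin K → (Fin K → Fin (n + 1)) → Prop := fun i j t =>
    i < j ∧ x t i * cof M (x t) i j ∈ S
  have hbad : ∀ i j : Fin K, (K * K + 1) * (univ.filter fun t => bad i j t).card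
      ≤ Fintype.card (Fin K → Fin (n + 1)) := by
    intro i j
    refine card_bad i (bad i j) (K * K + 1) fun t => ?_
    by_cases hij : i < j
    · have hc : 0 < cof M (x t) i j := cof_pos M (x t) (hxM t) (hx0 t) hij
      have := hφ (cof M (x t) i j) hc
        (univ.filter fun τ => bad i j (Function.update t i τ)) ?_
      · simpa using this
      · intro τ hτ
        have h1 := (Finset.mem_filter.1 hτ).2
        have h2 : x (Function.update t i τ) i = φ τ := by
          simp [x]
        have h3 : cof M (x (Function.update t i τ)) i j = cof M (x t) i j := by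
          refine cof_congr M _ _ _ _ fun m hm => ?_
          by_cases h : m < K
          · simp only [x, h, dif_pos]
            rw [Function.update_of_ne]
            intro hcon
            exact hm (by rw [← hcon])
          · simp only [x, h, dif_neg, not_false_eq_true]
        have h4 := h1.2
        rw [h2, h3, mul_comm] at h4
        exact h4
    · have : (univ.filter fun τ => bad i j (Function.update t i τ)) = ∅ := by
        refine Finset.filter_eq_empty_iff.2 fun τ _ h => hij h.1
      rw [this]; simp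
  -- union bound
  have hgood : ∃ t : Fin K → Fin (n + 1), ∀ i j, ¬ bad i j t := by
    by_contra hcon
    push Not at hcon
    have hsub : (univ : Finset (Fin K → Fin (n + 1)))
        ⊆ (univ : Finset (Fin K × Fin K)).biUnion fun p => univ.filter fun t => bad p.1 p.2 t := by
      intro t _
      obtain ⟨i, j, hij⟩ := hcon t
      exact Finset.mem_biUnion.2 ⟨(i, j), mem_univ _, Finset.mem_filter.2 ⟨mem_univ _, hij⟩⟩
    have h1 := (Finset.card_le_card hsub).trans Finset.card_biUnion_le
    rw [Finset.card_univ] at h1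
    have h2 : (K * K + 1) * Fintype.card (Fin K → Fin (n + 1))
        ≤ K * K * Fintype.card (Fin K → Fin (n + 1)) := by
      calc (K * K + 1) * Fintype.card (Fin K → Fin (n + 1))
          ≤ (K * K + 1) * ∑ p : Fin K × Fin K, (univ.filter fun t => bad p.1 p.2 t).card :=
            Nat.mul_le_mul_left _ h1
        _ = ∑ p : Fin K × Fin K, (K * K + 1) * (univ.filter fun t => bad p.1 p.2 t).card := by
            rw [Finset.mul_sum]
        _ ≤ ∑ _p : Fin K × Fin K, Fintype.card (Fin K → Fin (n + 1)) :=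
            Finset.sum_le_sum fun p _ => hbad p.1 p.2
        _ = K * K * Fintype.card (Fin K → Fin (n + 1)) := by
            rw [Finset.sum_const, Finset.card_univ, smul_eq_mul, Fintype.card_prod, Fintype.card_fin]
    have h3 : 0 < Fintype.card (Fin K → Fin (n + 1)) := Fintype.card_pos
    nlinarith
  obtain ⟨t, ht⟩ := hgood
  refine ⟨fun i => P M (x t) i, fun i j => x t i * cof M (x t) i j, fun i _ => P_pos _ _ _, ?_⟩
  intro i j hij hj
  refine ⟨Nat.mul_pos (hx0 t i) (cof_pos M (x t) (hxM t) (hx0 t) hij),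
    P_eq_mul M (x t) (hxM t) hij.le, fun hmem => ?_⟩
  exact ht ⟨i, hij.trans hj⟩ ⟨j, hj⟩ ⟨hij, hmem⟩

/-- A finite union of colour classes, each having arbitrarily long families of pairwise disjoint
dilates, is sparse. -/
lemma sparse_union (r : ℕ) (c : ℕ → Fin r) (small : Fin r → Prop)
    (h : ∀ i, small i → ∀ k : ℕ, ∃ Q : ℕ → ℕ, (∀ j, j < k → 0 < Q j) ∧
      ∀ p q, p < q → q < k → ∀ n, 0 < n → ¬ (c (n * Q p) = i ∧ c (n * Q q) = i)) :
    Sparse {n | small (c n)} := by
  classical
  intro N
  by_cases hr : r = 0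
  · subst hr; exact (c 0).elim0
  have hr0 : 0 < r := Nat.pos_of_ne_zero hr
  set k := (N + 1) * r with hk
  have hk0 : 0 < k := Nat.mul_pos (Nat.succ_pos _) hr0
  have h' : ∀ i, ∃ Q : ℕ → ℕ, (∀ j, j < k → 0 < Q j) ∧ (small i → 
      ∀ p q, p < q → q < k → ∀ n, 0 < n → ¬ (c (n * Q p) = i ∧ c (n * Q q) = i)) := by
    intro i
    by_cases hs : small i
    · obtain ⟨Q, hQ0, hQ⟩ := h i hs k
      exact ⟨Q, hQ0, fun _ => hQ⟩
    · exact ⟨fun _ => 1, fun _ _ => Nat.one_pos, fun h => absurd h hs⟩
  choose Q hQ0 hQ using h'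
  have : NeZero k := ⟨hk0.ne'⟩
  let T := Fin r → Fin k
  have hTpos : 0 < Fintype.card T := Fintype.card_pos
  let ψ : T → ℕ := fun t => ∏ i, Q i (t i)
  have hψ0 : ∀ t, 0 < ψ t := fun t => Finset.prod_pos fun i _ => hQ0 i _ (t i).2
  -- main estimate on T
  have key : ∀ a : ℕ, 0 < a → ∀ i, small i →
      k * (univ.filter fun t : T => c (a * ψ t) = i).card ≤ Fintype.card T := by
    intro a ha i hi
    refine card_bad i (fun t : T => c (a * ψ t) = i) k fun t => ?_
    have hle : (univ.filter fun τ : Fin k => c (a * ψ (Function.update t i τ)) = i).card ≤ 1 := by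
      rw [Finset.card_le_one]
      intro τ hτ σ hσ
      by_contra hne
      have h1 := (Finset.mem_filter.1 hτ).2
      have h2 := (Finset.mem_filter.1 hσ).2
      have hψu : ∀ ρ : Fin k, a * ψ (Function.update t i ρ)
          = (a * ∏ l ∈ univ.erase i, Q l (t l)) * Q i ρ := by
        intro ρ
        simp only [ψ]
        rw [← Finset.mul_prod_erase univ _ (mem_univ i), Function.update_self,
          Finset.prod_congr rfl (g := fun l => Q l (t l)) fun l hl => by
            rw [Function.update_of_ne (Finset.ne_of_mem_erase hl)]]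
        ring
      rw [hψu] at h1 h2
      have hpos : 0 < a * ∏ l ∈ univ.erase i, Q l (t l) :=
        Nat.mul_pos ha (Finset.prod_pos fun l _ => hQ0 l _ (t l).2)
      rcases lt_or_gt_of_ne hne with hlt | hlt
      · exact hQ i hi τ σ hlt σ.2 _ hpos ⟨h1, h2⟩
      · exact hQ i hi σ τ hlt τ.2 _ hpos ⟨h2, h1⟩
    calc k * _ ≤ k * 1 := Nat.mul_le_mul_left _ hle
      _ = Fintype.card (Fin k) := by simp
  have key2 : ∀ a : ℕ, 0 < a → ∀ F : Finset T, (∀ t ∈ F, small (c (a * ψ t))) →
      N * F.card ≤ Fintype.card T := by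
    intro a ha F hF
    have hsub : F ⊆ (univ.filter fun i : Fin r => small i).biUnion
        fun i => univ.filter fun t : T => c (a * ψ t) = i := by
      intro t ht
      exact Finset.mem_biUnion.2 ⟨c (a * ψ t), Finset.mem_filter.2 ⟨mem_univ _, hF t ht⟩,
        Finset.mem_filter.2 ⟨mem_univ _, rfl⟩⟩
    have h1 := (Finset.card_le_card hsub).trans Finset.card_biUnion_le
    have h2 : k * F.card ≤ r * Fintype.card T := by
      calc k * F.card ≤ k * ∑ i ∈ univ.filter (fun i : Fin r => small i),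
            (univ.filter fun t : T => c (a * ψ t) = i).card := Nat.mul_le_mul_left _ h1
        _ = ∑ i ∈ univ.filter (fun i : Fin r => small i),
            k * (univ.filter fun t : T => c (a * ψ t) = i).card := by rw [Finset.mul_sum]
        _ ≤ ∑ _i ∈ univ.filter (fun i : Fin r => small i), Fintype.card T :=
            Finset.sum_le_sum fun i hi => key a ha i (Finset.mem_filter.1 hi).2
        _ = (univ.filter fun i : Fin r => small i).card * Fintype.card T := by
            rw [Finset.sum_const, smul_eq_mul]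
        _ ≤ r * Fintype.card T := by
            refine Nat.mul_le_mul_right _ ?_
            calc _ ≤ (univ : Finset (Fin r)).card := Finset.card_filter_le _ _
              _ = r := by simp
    have h3 : r * ((N + 1) * F.card) ≤ r * Fintype.card T := by
      calc r * ((N + 1) * F.card) = k * F.card := by rw [hk]; ring
        _ ≤ _ := h2
    have h4 := Nat.le_of_mul_le_mul_left h3 hr0
    nlinarith
  -- transfer to Fin (n+1)
  obtain ⟨n, hn⟩ : ∃ n, Fintype.card T = n + 1 := ⟨Fintype.card T - 1, by omega⟩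
  let e : T ≃ Fin (n + 1) := Fintype.equivFinOfCardEq hn
  refine ⟨n, fun t => ψ (e.symm t), fun t => hψ0 _, fun a ha F hF => ?_⟩
  have := key2 a ha (F.map e.symm.toEmbedding) ?_
  · rw [Finset.card_map, hn] at this
    exact this
  · intro t ht
    obtain ⟨s, hs, rfl⟩ := Finset.mem_map.1 ht
    exact hF s hs

/-- For every coloring of the natural numbers with finitely many colors, there exist positive integers a and b such that a, b and a(b+1) all receive the same color. -/
theorem translated_product :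
    ∀ (r : ℕ) (c : ℕ → Fin r),
      ∃ a b : ℕ, 0 < a ∧ 0 < b ∧ c a = c b ∧ c a = c (a * (b + 1)) := by
  classical
  intro r c
  by_cases hr : r = 0
  · subst hr; exact (c 0).elim0
  have hr0 : 0 < r := Nat.pos_of_ne_zero hr
  by_contra hcon
  push Not at hcon
  -- large classes
  let large : Fin r → ℕ → Prop := fun i k => ∀ Q : ℕ → ℕ, (∀ j, j < k → 0 < Q j) →
      ∃ p q, p < q ∧ q < k ∧ ∃ n, 0 < n ∧ (c (n * Q p) = i ∧ c (n * Q q) = i)
  have hsparse : Sparse {n | (¬ ∃ k, large (c n) k)} := by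
    refine sparse_union r c (fun i => ¬ ∃ k, large i k) fun i hi k => ?_
    have hk : ¬ large i k := fun h => hi ⟨k, h⟩
    simp only [large] at hk
    push Not at hk
    obtain ⟨Q, hQ0, hQ⟩ := hk
    refine ⟨Q, hQ0, fun p q hpq hq n hn h => ?_⟩
    exact hQ p q hpq hq n hn h.1 h.2
  -- a uniform k
  have hk : ∃ k : ℕ, 2 ≤ k ∧ ∀ i, (∃ k', large i k') → ∃ k', k' ≤ k ∧ large i k' := by
    have h1 : ∀ i, ∃ k, (∃ k', large i k') → large i k := by
      intro i
      by_cases h : ∃ k', large i k'
      · obtain ⟨k', hk'⟩ := h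
        exact ⟨k', fun _ => hk'⟩
      · exact ⟨0, fun h' => absurd h' h⟩
    choose κ hκ using h1
    refine ⟨2 + ∑ i, κ i, by omega, fun i hi => ⟨κ i, ?_, hκ i hi⟩⟩
    have := Finset.single_le_sum (f := κ) (fun _ _ => Nat.zero_le _) (mem_univ i)
    omega
  obtain ⟨k, hk2, hk⟩ := hk
  obtain ⟨K, hK⟩ := ramsey r hr0 k
  obtain ⟨Q, b, hQ0, hQb⟩ := exists_chain _ hsparse K
  obtain ⟨f, i, hfK, hf⟩ := hK fun p q => c (b p q)
  have hi : ∃ k', large i k' := by
    have h01 : (⟨0, by omega⟩ : Fin k) < ⟨1, by omega⟩ := by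
      simp [Fin.lt_def]
    have h1 := hf _ _ h01
    have h2 := (hQb _ _ h1.1 (hfK _)).2.2
    simp only [Set.mem_ofPred_eq, not_not] at h2
    rw [← h1.2]
    exact h2
  obtain ⟨k', hk'k, hk'⟩ := hk i hi
  obtain ⟨p, q, hpq, hqk, n, hn, hp, hq⟩ := hk'
    (fun j => if h : j < k then Q (f ⟨j, h⟩) else 1) (by
      intro j hj
      simp only [lt_of_lt_of_le hj hk'k, dif_pos]
      exact hQ0 _ (hfK _))
  have hqk2 : q < k := lt_of_lt_of_le hqk hk'k
  have hpk2 : p < k := hpq.trans hqk2
  simp only [hqk2, hpk2, dif_pos] at hp hq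
  have hlt : (⟨p, hpk2⟩ : Fin k) < ⟨q, hqk2⟩ := hpq
  have h1 := hf _ _ hlt
  obtain ⟨hb0, hbQ, -⟩ := hQb _ _ h1.1 (hfK _)
  refine hcon (n * Q (f ⟨p, hpk2⟩)) (b (f ⟨p, hpk2⟩) (f ⟨q, hqk2⟩))
    (Nat.mul_pos hn (hQ0 _ (hfK _))) hb0 ?_ ?_
  · rw [hp, h1.2]
  · rw [hp, mul_assoc, ← hbQ, hq]

end Pool.Agent.L0h63.S10423Proof
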